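import Pool.Agent.helper14.AV.Final2

/-!
# Compatible alternating paths for cuttable families of segments (Q1, the q half)

Points are elements of `ℝ × ℝ`; the family consists of the segments `segment ℝ (A i) (B i)`, `i : Fin n`.
The definitions (in `Pool.Agent.helper14.AV`):

* `D a b c = (b.1 - a.1) * (c.2 - a.2) - (b.2 - a.2) * (c.1 - a.1)`, the orientation determinant;
* `Cuttable A B W U`: the region with boundary segments `W` and inner segments `U` can be cut by the lines of
  the inner segments, one after another, each line missing all other segments of the region;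
* `HasCaterpillar T k`: at least `k` edges of `T` meet some path of `T`;
* `CompatiblePath A B k`: an alternating path through `k` of the segments, compatible with all of them.
-/

set_option autoImplicit false

namespace Pool.Agent.Results.MP_801ee0_co.CuttableFamilies

open Pool.Agent.helper14.AV

/-- Every cuttable family of `n` segments has a compatible alternating path through `k` segments, as soon as every
tree with `n` edges contains a caterpillar with `k` edges; families in which no line through a segment
meets another segment are cuttable; disjoint segments with ends in convex position are such a family. -/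
theorem result :
    (∀ (n : ℕ) (A B : Fin n → ℝ × ℝ), (∀ i, A i ≠ B i) → Cuttable A B ∅ Finset.univ →
      ∀ k : ℕ, (∀ (V : Type) [Fintype V] (T : SimpleGraph V), T.IsTree →
        Fintype.card V = n + 1 → HasCaterpillar T k) → CompatiblePath A B k) ∧
    (∀ (n : ℕ) (A B : Fin n → ℝ × ℝ), (∀ i, A i ≠ B i) →
      (∀ i j, i ≠ j → Disjoint
        ((affineSpan ℝ {A i, B i} : AffineSubspace ℝ (ℝ × ℝ)) : Set (ℝ × ℝ))
        (segment ℝ (A j) (B j))) → Cuttable A B ∅ Finset.univ) ∧
    (∀ (n : ℕ) (A B : Fin n → ℝ × ℝ),
      ConvexIndependent ℝ (fun x : Fin n × Bool => if x.2 then A x.1 else B x.1) →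
      (∀ i j, i ≠ j → Disjoint (segment ℝ (A i) (B i)) (segment ℝ (A j) (B j))) →
      (∀ i, A i ≠ B i) ∧ ∀ i j, i ≠ j → Disjoint
        ((affineSpan ℝ {A i, B i} : AffineSubspace ℝ (ℝ × ℝ)) : Set (ℝ × ℝ))
        (segment ℝ (A j) (B j))) :=
  ⟨fun n A B hne hcut k hk => RES1 n A B hne hcut k hk, fun n A B hne hns => RES2 n A B hne hns,
    RES3⟩

end Pool.Agent.Results.MP_801ee0_co.CuttableFamilies
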