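import Pool.Agent.helper14.AV.Final2

/-!
# Families which can be prolonged to a family in convex position (Q1, both halves)

Points are elements of `ℝ × ℝ`.  The long segments `segment ℝ (P i) (Q i)` are pairwise disjoint and their ends are
in convex position; the short segment `i` has the ends `A i ≠ B i` on the long segment `i`.  `AltPath A B k`: an
alternating path through `k` of the segments `A i, B i`; `CompatiblePath A B k`: such a path which is
compatible with all of them (definitions in `Pool.Agent.helper14.AV`).
-/

set_option autoImplicit false

namespace Pool.Agent.Results.MP_801ee0_co.ShortenedConvex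

open Pool.Agent.helper14.AV

/-- An alternating (compatible) path through `k` of the long segments gives an alternating (compatible) path
through `k` of the short segments. -/
theorem result :
    ∀ (n : ℕ) (P Q A B : Fin n → ℝ × ℝ),
      ConvexIndependent ℝ (fun x : Fin n × Bool => if x.2 then P x.1 else Q x.1) →
      (∀ i j, i ≠ j → Disjoint (segment ℝ (P i) (Q i)) (segment ℝ (P j) (Q j))) →
      (∀ i, A i ≠ B i ∧ A i ∈ segment ℝ (P i) (Q i) ∧ B i ∈ segment ℝ (P i) (Q i)) →
      ∀ k : ℕ, (AltPath P Q k → AltPath A B k) ∧ (CompatiblePath P Q k → CompatiblePath A B k) :=
  RES4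

end Pool.Agent.Results.MP_801ee0_co.ShortenedConvex
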